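import Pool.Agent.Helper31.TW.St1

set_option autoImplicit false

/-!
# Project TW (MP_434a84_lc), module DCK (Dickson)
-/

namespace Pool.Agent.Helper95.TW

open Symbol Pool.Agent.Helper22.FL Pool.Agent.Helper22.CS Pool.Agent.Helper15.TS
open Pool.Agent.Helper31.TW

variable {n : ℕ}

theorem frm_add (α : Fin n → ℤ) (x y : Fin n → ℕ) : frm α (x + y) = frm α x + frm α y := by
  simp only [frm, Pi.add_apply, Nat.cast_add, mul_add, Finset.sum_add_distrib]

theorem frm_zero (α : Fin n → ℤ) : frm α 0 = 0 := by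
  simp [frm]

/-- finitely many elements below all others -/
theorem basis {ι : Type} [Finite ι] (Q : Set (Fin n → ℕ)) (φ : (Fin n → ℕ) → ι → ℕ) :
    ∃ F : Finset (Fin n → ℕ), (∀ f ∈ F, f ∈ Q) ∧ ∀ t ∈ Q, ∃ f ∈ F, f ≤ t ∧ φ f ≤ φ t := by
  classical
  let A : Set (Fin n ⊕ ι → ℕ) := {c | ∃ t ∈ Q, c = Sum.elim t (φ t)}
  have hM : {c | Minimal (· ∈ A) c}.Finite :=
    WellQuasiOrderedLE.finite_of_isAntichain (setOfPred_minimal_antichain _)
  refine ⟨hM.toFinset.image (fun c i => c (Sum.inl i)), ?_, ?_⟩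
  · intro f hf
    obtain ⟨c, hc, rfl⟩ := Finset.mem_image.1 hf
    obtain ⟨t, ht, rfl⟩ := (hM.mem_toFinset.1 hc).1
    exact ht
  · intro t ht
    obtain ⟨c0, h0, hmin⟩ := exists_minimal_le_of_wellFoundedLT (· ∈ A) (Sum.elim t (φ t)) ⟨t, ht, rfl⟩
    obtain ⟨f, hf, hfc⟩ := hmin.1
    refine ⟨f, Finset.mem_image.2 ⟨c0, hM.mem_toFinset.2 hmin, ?_⟩, ?_, ?_⟩
    · rw [hfc]
      rfl
    · intro i
      have h1 := h0 (Sum.inl i)
      rw [hfc] at h1
      exact h1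
    · intro i
      have h1 := h0 (Sum.inr i)
      rw [hfc] at h1
      exact h1

/-- the finite basis of the set of solutions of inequalities -/
theorem basis' (I : Finset (Fin n)) (A : Finset ((Fin n → ℤ) × ℤ)) (T : Set (Fin n → ℕ)) :
    ∃ F : Finset (Fin n → ℕ), (∀ f ∈ F, f ∈ T ∧ (∀ i, i ∉ I → f i = 0) ∧ ∀ p ∈ A, p.2 ≤ frm p.1 f) ∧
    ∀ t ∈ T, (∀ i, i ∉ I → t i = 0) → (∀ p ∈ A, p.2 ≤ frm p.1 t) →
      ∃ f ∈ F, ∃ u : Fin n → ℕ, t = f + u ∧ (∀ i, i ∉ I → u i = 0) ∧ ∀ p ∈ A, 0 ≤ frm p.1 u := by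
  obtain ⟨F, h1, h2⟩ := basis {t : Fin n → ℕ | t ∈ T ∧ (∀ i, i ∉ I → t i = 0) ∧ ∀ p ∈ A, p.2 ≤ frm p.1 t}
    (fun t (p : {p // p ∈ A}) => (frm p.1.1 t - p.1.2).toNat)
  refine ⟨F, h1, ?_⟩
  intro t ht hI hA
  obtain ⟨f, hf, hle, hφ⟩ := h2 t ⟨ht, hI, hA⟩
  have htf : t = f + (t - f) := by
    ext i
    have h7 : f i ≤ t i := hle i
    simp only [Pi.add_apply, Pi.sub_apply]
    omega
  refine ⟨f, hf, t - f, htf, ?_, ?_⟩
  · intro i hi
    simp only [Pi.sub_apply]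
    rw [hI i hi]
    omega
  · intro p hp
    have h3 := hφ ⟨p, hp⟩
    have h4 := (h1 f hf).2.2 p hp
    have h5 := hA p hp
    have h6 := frm_add p.1 f (t - f)
    rw [← htf] at h6
    simp only at h3
    omega

theorem frm_sum (α : Fin n → ℤ) (P : Finset (Fin n → ℕ)) (s : (Fin n → ℕ) → ℕ)
    (h : ∀ p ∈ P, 0 ≤ frm α p) : 0 ≤ frm α (∑ p ∈ P, s p • p) := by
  classical
  induction P using Finset.induction_on with
  | empty => rw [Finset.sum_empty, frm_zero]
  | insert a P ha ih =>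
    rw [Finset.sum_insert ha, frm_add]
    have h1 : ∀ m : ℕ, 0 ≤ frm α (m • a) := by
      intro m
      induction m with
      | zero => rw [zero_smul, frm_zero]
      | succ m ihm =>
        rw [add_smul, one_smul, frm_add]
        exact add_nonneg ihm (h a (Finset.mem_insert_self _ _))
    exact add_nonneg (h1 _) (ih fun p hp => h p (Finset.mem_insert_of_mem hp))

theorem supp_sum (I : Finset (Fin n)) (P : Finset (Fin n → ℕ)) (s : (Fin n → ℕ) → ℕ)
    (h : ∀ p ∈ P, ∀ i, i ∉ I → p i = 0) (i : Fin n) (hi : i ∉ I) : (∑ p ∈ P, s p • p) i = 0 := by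
  rw [Finset.sum_apply]
  refine Finset.sum_eq_zero fun p hp => ?_
  rw [Pi.smul_apply, h p hp i hi, smul_zero]

theorem hDCK : StDCK := by
  classical
  intro n I A
  obtain ⟨F, hF1, hF2⟩ := basis' I A Set.univ
  obtain ⟨P, hP1, hP2⟩ := basis' I (A.image fun p => (p.1, (0 : ℤ))) {t | t ≠ 0}
  have hz : ∀ u : Fin n → ℕ, (∀ p ∈ A.image fun p => (p.1, (0 : ℤ)), p.2 ≤ frm p.1 u) ↔
      ∀ p ∈ A, 0 ≤ frm p.1 u := by
    intro u
    simp only [Finset.mem_image]
    constructor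
    · intro h p hp
      exact h (p.1, 0) ⟨p, hp, rfl⟩
    · rintro h _ ⟨p, hp, rfl⟩
      exact h p hp
  have hz' : ∀ u : Fin n → ℕ, (∀ p ∈ A.image fun p => (p.1, (0 : ℤ)), 0 ≤ frm p.1 u) ↔
      ∀ p ∈ A, 0 ≤ frm p.1 u := by
    intro u
    simp only [Finset.mem_image]
    constructor
    · intro h p hp
      exact h (p.1, 0) ⟨p, hp, rfl⟩
    · rintro h _ ⟨p, hp, rfl⟩
      exact h p hp
  have hQ0 : ∀ t : Fin n → ℕ, ((∀ i, i ∉ I → t i = 0) ∧ ∀ p ∈ A, 0 ≤ frm p.1 t) ↔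
      ∃ s : (Fin n → ℕ) → ℕ, t = ∑ p ∈ P, s p • p := by
    intro t
    constructor
    · rintro ⟨hI, hA⟩
      induction hk : ∑ i, t i using Nat.strong_induction_on generalizing t with
      | _ k ih =>
        by_cases h0 : t = 0
        · refine ⟨fun _ => 0, ?_⟩
          rw [h0, Finset.sum_eq_zero]
          intro p _
          exact zero_smul _ _
        · obtain ⟨f, hf, u, htu, huI, huA⟩ := hP2 t h0 hI ((hz t).2 hA)
          have hfne : f ≠ 0 := (hP1 f hf).1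
          have hlt : ∑ i, u i < k := by
            rw [← hk, htu]
            simp only [Pi.add_apply, Finset.sum_add_distrib]
            have h1 : 0 < ∑ i, f i := by
              obtain ⟨i, hi⟩ := Function.ne_iff.1 hfne
              have hi' : f i ≠ 0 := hi
              exact lt_of_lt_of_le (Nat.pos_of_ne_zero hi')
                (Finset.single_le_sum (f := fun i => f i) (fun _ _ => Nat.zero_le _) (Finset.mem_univ i))
            omega
          obtain ⟨s, hs⟩ := ih _ hlt u huI ((hz' u).1 huA) rfl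
          refine ⟨fun p => s p + if p = f then 1 else 0, ?_⟩
          rw [htu]
          conv_lhs => rw [hs]
          simp only [add_smul, Finset.sum_add_distrib, ite_smul, one_smul, zero_smul]
          rw [Finset.sum_ite_eq' P f, if_pos hf, add_comm]
    · rintro ⟨s, rfl⟩
      refine ⟨fun i hi => supp_sum I P s (fun p hp => (hP1 p hp).2.1) i hi, fun p hp => ?_⟩
      exact frm_sum p.1 P s fun q hq => (hz q).1 (hP1 q hq).2.2 p hp
  refine ⟨F, P, ?_, hQ0⟩
  intro t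
  constructor
  · rintro ⟨hI, hA⟩
    obtain ⟨f, hf, u, htu, huI, huA⟩ := hF2 t trivial hI hA
    obtain ⟨s, hs⟩ := (hQ0 u).1 ⟨huI, huA⟩
    exact ⟨f, hf, s, by rw [htu]; conv_lhs => rw [hs]⟩
  · rintro ⟨f, hf, s, rfl⟩
    obtain ⟨h1, h2⟩ := (hQ0 (∑ p ∈ P, s p • p)).2 ⟨s, rfl⟩
    refine ⟨fun i hi => ?_, fun p hp => ?_⟩
    · rw [Pi.add_apply, h1 i hi, (hF1 f hf).2.1 i hi]
    · rw [frm_add]
      have h3 := h2 p hp
      have h4 := (hF1 f hf).2.2 p hp
      omega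

end Pool.Agent.Helper95.TW
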