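import Pool.Agent.Helper31.TW.St3

set_option autoImplicit false

/-!
# Project TW (MP_434a84_lc), module PEN (two forms)
-/

namespace Pool.Agent.Helper95.TW

open Pool.Agent.Helper22.FL Pool.Agent.Helper22.CS Pool.Agent.Helper15.TS
open Pool.Agent.Helper31.TW

variable {n : ℕ}

/-- one form without a positive zero -/
theorem one_form (α : Fin n → ℤ) (h : ∀ y : Fin n → ℤ, Pos y → dot α y ≠ 0) :
    ((∀ i, 0 ≤ α i) ∧ ∃ i, 0 < α i) ∨ ((∀ i, 0 ≤ -α i) ∧ ∃ i, 0 < -α i) := by
  classical
  by_cases hp : ∃ p, 0 < α p
  · by_cases hq : ∃ q, α q < 0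
    · exfalso
      obtain ⟨p, hp⟩ := hp
      obtain ⟨q, hq⟩ := hq
      have hP : 0 < ∑ i, max (α i) 0 := by
        refine Finset.sum_pos' (fun i _ => le_max_right _ _) ⟨p, Finset.mem_univ _, ?_⟩
        exact lt_max_of_lt_left hp
      have hN : 0 < ∑ i, max (-α i) 0 := by
        refine Finset.sum_pos' (fun i _ => le_max_right _ _) ⟨q, Finset.mem_univ _, ?_⟩
        exact lt_max_of_lt_left (by omega)
      set P := ∑ i, max (α i) 0 with hPd
      set N := ∑ i, max (-α i) 0 with hNd
      refine h (fun i => if 0 < α i then N else if α i < 0 then P else 1) ?_ ?_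
      · intro i
        simp only
        split_ifs <;> omega
      · unfold dot
        have h1 : ∀ i, α i * (if 0 < α i then N else if α i < 0 then P else 1) =
            max (α i) 0 * N - max (-α i) 0 * P := by
          intro i
          rcases lt_trichotomy (α i) 0 with h2 | h2 | h2
          · rw [if_neg (by omega), if_pos h2, max_eq_right h2.le, max_eq_left (by omega)]
            ring
          · rw [h2]
            simp
          · rw [if_pos h2, max_eq_left h2.le, max_eq_right (by omega)]
            ring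
        rw [Finset.sum_congr rfl fun i _ => h1 i, Finset.sum_sub_distrib, ← Finset.sum_mul,
          ← Finset.sum_mul, ← hPd, ← hNd]
        ring
    · left
      push Not at hq
      exact ⟨hq, hp⟩
  · right
    push Not at hp
    refine ⟨fun i => by have := hp i; omega, ?_⟩
    by_contra hc
    push Not at hc
    have h0 : ∀ i, α i = 0 := fun i => by have := hp i; have := hc i; omega
    refine h (fun _ => 1) (fun _ => one_pos) ?_
    unfold dot
    exact Finset.sum_eq_zero fun i _ => by rw [h0 i, zero_mul]

theorem dot_add (α x y : Fin n → ℤ) : dot α (x + y) = dot α x + dot α y := by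
  simp only [dot, Pi.add_apply, mul_add, Finset.sum_add_distrib]

theorem dot_smul (α x : Fin n → ℤ) (c : ℤ) : dot α (c • x) = c * dot α x := by
  simp only [dot, Pi.smul_apply, smul_eq_mul, Finset.mul_sum]
  exact Finset.sum_congr rfl fun i _ => by ring

theorem dot_single (α : Fin n → ℤ) (i : Fin n) : dot α (Pi.single i 1) = α i := by
  classical
  unfold dot
  simp [Pi.single_apply]

theorem dot_neg (α x : Fin n → ℤ) : dot (-α) x = - dot α x := by
  simp [dot, Finset.sum_neg_distrib]

/-- the main case -/
theorem pen_main (α β y0 : Fin n → ℤ) (hy0 : Pos y0) (h0 : dot α y0 = 0) (hb : dot β y0 ≠ 0)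
    (hg : ∀ g : Fin n → ℤ, (∀ i, 0 ≤ g i) → dot α g = 0 → 0 ≤ dot β g) :
    ∃ a b : ℤ, (∀ i, 0 ≤ a * α i + b * β i) ∧ ∃ i, 0 < a * α i + b * β i := by
  classical
  have hs : ∀ i j : Fin n, (0 : ℤ) ≤ (Pi.single i 1 : Fin n → ℤ) j := by
    intro i j
    rw [Pi.single_apply]
    split_ifs <;> omega
  by_cases hp : ∃ p, 0 < α p
  · obtain ⟨p, hp, hmax⟩ : ∃ p, 0 < α p ∧ ∀ i, 0 < α i → 0 ≤ α p * β i - β p * α i := by
      obtain ⟨p, hp1, hp2⟩ := Finset.exists_max_image (Finset.univ.filter fun i => 0 < α i)
        (fun i => -(β i : ℚ) / (α i : ℚ)) (by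
          obtain ⟨p, hp⟩ := hp
          exact ⟨p, Finset.mem_filter.2 ⟨Finset.mem_univ _, hp⟩⟩)
      have hp3 : 0 < α p := (Finset.mem_filter.1 hp1).2
      refine ⟨p, hp3, fun i hi => ?_⟩
      have h1 := hp2 i (Finset.mem_filter.2 ⟨Finset.mem_univ _, hi⟩)
      have hp4 : (0 : ℚ) < α p := by exact_mod_cast hp3
      have hi4 : (0 : ℚ) < α i := by exact_mod_cast hi
      rw [div_le_div_iff₀ hi4 hp4] at h1
      have h2 : (0 : ℚ) ≤ α p * β i - β p * α i := by linarith
      exact_mod_cast h2
    have hall : ∀ i, 0 ≤ -β p * α i + α p * β i := by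
      intro i
      rcases lt_trichotomy (α i) 0 with h2 | h2 | h2
      · have h3 := hg (α p • Pi.single i 1 + (-α i) • Pi.single p 1) (fun j => by
          simp only [Pi.add_apply, Pi.smul_apply, smul_eq_mul]
          exact add_nonneg (mul_nonneg hp.le (hs i j)) (mul_nonneg (by omega) (hs p j)))
          (by rw [dot_add, dot_smul, dot_smul, dot_single, dot_single]; ring)
        rw [dot_add, dot_smul, dot_smul, dot_single, dot_single] at h3
        linarith
      · have h3 := hg (Pi.single i 1) (hs i) (by rw [dot_single, h2])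
        rw [dot_single] at h3
        rw [h2, mul_zero, zero_add]
        exact mul_nonneg hp.le h3
      · have h3 := hmax i h2
        linarith
    refine ⟨-β p, α p, hall, ?_⟩
    by_contra hc
    push Not at hc
    have heq : ∀ i, -β p * α i + α p * β i = 0 := fun i => le_antisymm (hc i) (hall i)
    have h3 : α p * dot β y0 = 0 := by
      have h4 : -β p * dot α y0 + α p * dot β y0 = 0 := by
        unfold dot
        rw [Finset.mul_sum, Finset.mul_sum, ← Finset.sum_add_distrib]
        refine Finset.sum_eq_zero fun i _ => ?_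
        have h5 := heq i
        have h6 : -β p * (α i * y0 i) + α p * (β i * y0 i) = (-β p * α i + α p * β i) * y0 i := by ring
        rw [h6, h5, zero_mul]
      rw [h0, mul_zero, zero_add] at h4
      exact h4
    rcases mul_eq_zero.1 h3 with h4 | h4
    · omega
    · exact hb h4
  · push Not at hp
    have hα : ∀ i, α i = 0 := by
      have h1 : ∀ i ∈ Finset.univ, α i * y0 i ≤ 0 := fun i _ =>
        mul_nonpos_of_nonpos_of_nonneg (hp i) (hy0 i).le
      have h2 := (Finset.sum_eq_zero_iff_of_nonpos h1).1 h0
      intro i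
      rcases mul_eq_zero.1 (h2 i (Finset.mem_univ i)) with h3 | h3
      · exact h3
      · have := hy0 i
        omega
    have hα' : ∀ g, dot α g = 0 := fun g => Finset.sum_eq_zero fun i _ => by rw [hα i, zero_mul]
    have hβ : ∀ i, 0 ≤ β i := fun i => by
      have h1 := hg (Pi.single i 1) (hs i) (hα' _)
      rwa [dot_single] at h1
    refine ⟨0, 1, fun i => by rw [zero_mul, one_mul, zero_add]; exact hβ i, ?_⟩
    by_contra hc
    push Not at hc
    apply hb
    refine Finset.sum_eq_zero fun i _ => ?_
    have h1 := hc i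
    rw [zero_mul, one_mul, zero_add] at h1
    rw [le_antisymm h1 (hβ i), zero_mul]

theorem hPEN : StPEN := by
  intro n α β h
  by_cases hA : ∃ y0, Pos y0 ∧ dot α y0 = 0
  · obtain ⟨y0, hy0, h0⟩ := hA
    have hb : dot β y0 ≠ 0 := fun hb => h y0 hy0 ⟨h0, hb⟩
    by_cases hg : ∀ g : Fin n → ℤ, (∀ i, 0 ≤ g i) → dot α g = 0 → 0 ≤ dot β g
    · exact pen_main α β y0 hy0 h0 hb hg
    · by_cases hg' : ∀ g : Fin n → ℤ, (∀ i, 0 ≤ g i) → dot α g = 0 → 0 ≤ dot (-β) g
      · obtain ⟨a, b, h1, h2⟩ := pen_main α (-β) y0 hy0 h0 (by rw [dot_neg]; omega) hg'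
        refine ⟨a, -b, fun i => ?_, ?_⟩
        · have := h1 i
          rw [Pi.neg_apply] at this
          linarith
        · obtain ⟨i, hi⟩ := h2
          refine ⟨i, ?_⟩
          rw [Pi.neg_apply] at hi
          linarith
      · exfalso
        push Not at hg hg'
        obtain ⟨g, g1, g2, g3⟩ := hg
        obtain ⟨g', g1', g2', g3'⟩ := hg'
        rw [dot_neg] at g3'
        rcases lt_or_gt_of_ne hb with hb | hb
        · refine h (dot β g' • y0 + (-dot β y0) • g') ?_ ⟨?_, ?_⟩
          · intro i
            simp only [Pi.add_apply, Pi.smul_apply, smul_eq_mul]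
            exact add_pos_of_pos_of_nonneg (mul_pos (by omega) (hy0 i))
              (mul_nonneg (by omega) (g1' i))
          · rw [dot_add, dot_smul, dot_smul, h0, g2']
            ring
          · rw [dot_add, dot_smul, dot_smul]
            ring
        · refine h ((-dot β g) • y0 + (dot β y0) • g) ?_ ⟨?_, ?_⟩
          · intro i
            simp only [Pi.add_apply, Pi.smul_apply, smul_eq_mul]
            exact add_pos_of_pos_of_nonneg (mul_pos (by omega) (hy0 i))
              (mul_nonneg (by omega) (g1 i))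
          · rw [dot_add, dot_smul, dot_smul, h0, g2]
            ring
          · rw [dot_add, dot_smul, dot_smul]
            ring
  · push Not at hA
    rcases one_form α hA with ⟨h1, h2⟩ | ⟨h1, h2⟩
    · exact ⟨1, 0, fun i => by have := h1 i; linarith, by
        obtain ⟨i, hi⟩ := h2
        exact ⟨i, by linarith⟩⟩
    · exact ⟨-1, 0, fun i => by have := h1 i; linarith, by
        obtain ⟨i, hi⟩ := h2
        exact ⟨i, by linarith⟩⟩

end Pool.Agent.Helper95.TW
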